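import Mathlib
import Pool.Agent.W50.EqualLength

set_option autoImplicit false

namespace Pool.Agent.W50.EqualLengthGen

open Finset Pool.Agent.W50.EqualLength

/-- the finite inequality behind case 2 -/
theorem finite_ineq {A : Set ℕ} {E : Finset ℕ} (hE : ∀ p ∈ E, p.Prime)
    (hEA : ∀ p ∈ E, ∀ m ∈ A, p * m ∉ A) {N : ℕ} (hN : 0 < N) (hdiv : ∀ p ∈ E, p ∣ N)
    {d : ℝ} (hd0 : 0 < d)
    (hA : ∀ p ∈ E, d * (N / p : ℕ) ≤ (cnt A (N / p) : ℝ))
    (hA1 : d * N ≤ (cnt A N : ℝ)) :
    d ^ 2 * (∑ p ∈ E, (1 / p : ℝ)) ^ 2 ≤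
      (1 - d) * ((∑ p ∈ E, (1 / p : ℝ)) ^ 2 + ∑ p ∈ E, (1 / p : ℝ)) := by
  classical
  set s : ℝ := ∑ p ∈ E, (1 / p : ℝ) with hs
  have hs0 : 0 ≤ s := Finset.sum_nonneg fun p _ => by positivity
  have hNR : (0 : ℝ) < N := by exact_mod_cast hN
  -- B = complement
  set B : Finset ℕ := (Finset.Icc 1 N).filter (· ∉ A) with hB
  have hBcard : (B.card : ℝ) ≤ (1 - d) * N := by
    have h1 : (cnt A N : ℝ) + B.card = N := by
      have := Finset.card_filter_add_card_filter_not (s := Finset.Icc 1 N) (p := (· ∈ A))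
      simp only [Nat.card_Icc, Nat.add_sub_cancel] at this
      unfold cnt
      rw [hB]
      exact_mod_cast this
    linarith
  -- omega
  set om : ℕ → ℝ := fun n => ∑ p ∈ E, (if p ∣ n ∧ n / p ∈ A then (1 : ℝ) else 0) with hom
  set om2 : ℕ → ℝ := fun n => ∑ p ∈ E, (if p ∣ n then (1 : ℝ) else 0) with hom2
  have hle : ∀ n, om n ≤ om2 n := by
    intro n
    apply Finset.sum_le_sum
    intro p _
    by_cases h : p ∣ n ∧ n / p ∈ A
    · simp [h]
    · rw [if_neg h]; split_ifs <;> norm_num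
  have hom0 : ∀ n, 0 ≤ om n := fun n => Finset.sum_nonneg fun p _ => by split_ifs <;> norm_num
  -- total count
  have htot : d * s * N ≤ ∑ n ∈ Finset.Icc 1 N, om n := by
    rw [Finset.sum_comm]
    have : ∀ p ∈ E, d * (N * (1 / p)) ≤
        ∑ n ∈ Finset.Icc 1 N, (if p ∣ n ∧ n / p ∈ A then (1 : ℝ) else 0) := by
      intro p hp
      have hpp := hE p hp
      have hp0 : 0 < p := hpp.pos
      rw [← Finset.sum_filter, Finset.sum_const, nsmul_eq_mul, mul_one]
      have h2 : cnt A (N / p) ≤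
          ((Finset.Icc 1 N).filter (fun n => p ∣ n ∧ n / p ∈ A)).card := by
        unfold cnt
        apply Finset.card_le_card_of_injOn (fun m => p * m)
        · intro m hm
          simp only [Finset.coe_filter, Finset.mem_Icc, Set.mem_ofPred_eq] at hm ⊢
          refine ⟨⟨?_, ?_⟩, Dvd.intro _ rfl, ?_⟩
          · exact Nat.one_le_iff_ne_zero.mpr (Nat.mul_ne_zero hp0.ne' (by omega))
          · calc p * m ≤ p * (N / p) := Nat.mul_le_mul_left _ hm.1.2
              _ ≤ N := Nat.mul_div_le N p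
          · rw [Nat.mul_div_cancel_left _ hp0]; exact hm.2
        · intro a _ b _ hab
          exact Nat.eq_of_mul_eq_mul_left hp0 hab
      have h3 := hA p hp
      have h4 : ((N / p : ℕ) : ℝ) = N * (1 / p) := by
        rw [Nat.cast_div (hdiv p hp) (by exact_mod_cast hp0.ne')]
        ring
      rw [h4] at h3
      exact h3.trans (by exact_mod_cast h2)
    calc d * s * N = ∑ p ∈ E, d * (N * (1 / p)) := by
          rw [hs, Finset.mul_sum, Finset.sum_mul]
          apply Finset.sum_congr rfl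
          intro p _
          ring
      _ ≤ _ := Finset.sum_le_sum this
  -- the sum lives on B
  have hsupp : ∑ n ∈ Finset.Icc 1 N, om n = ∑ n ∈ B, om n := by
    rw [hB, Finset.sum_filter]
    apply Finset.sum_congr rfl
    intro n _
    by_cases hn : n ∈ A
    · rw [if_neg (by simpa using hn)]
      apply Finset.sum_eq_zero
      intro p hp
      rw [if_neg]
      rintro ⟨h1, h2⟩
      have := hEA p hp (n / p) h2
      rw [Nat.mul_div_cancel' h1] at this
      exact this hn
    · rw [if_pos hn]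
  -- second moment
  have hsq : ∑ n ∈ B, (om n) ^ 2 ≤ (s ^ 2 + s) * N := by
    have h1 : ∑ n ∈ B, (om n) ^ 2 ≤ ∑ n ∈ Finset.Icc 1 N, (om2 n) ^ 2 := by
      calc ∑ n ∈ B, (om n) ^ 2 ≤ ∑ n ∈ B, (om2 n) ^ 2 := by
            apply Finset.sum_le_sum
            intro n _
            exact pow_le_pow_left₀ (hom0 n) (hle n) 2
        _ ≤ _ := by
            apply Finset.sum_le_sum_of_subset_of_nonneg (Finset.filter_subset _ _)
            intro n _ _
            positivity
    refine h1.trans ?_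
    have h2 : ∀ n, (om2 n) ^ 2 = ∑ p ∈ E, ∑ q ∈ E, (if p ∣ n ∧ q ∣ n then (1 : ℝ) else 0) := by
      intro n
      rw [hom2, sq, Finset.sum_mul_sum]
      apply Finset.sum_congr rfl
      intro p _
      apply Finset.sum_congr rfl
      intro q _
      by_cases hp : p ∣ n <;> by_cases hq : q ∣ n <;> simp [hp, hq]
    simp_rw [h2]
    rw [Finset.sum_comm]
    have h3 : ∀ p ∈ E, ∑ n ∈ Finset.Icc 1 N, ∑ q ∈ E, (if p ∣ n ∧ q ∣ n then (1 : ℝ) else 0) ≤
        (N : ℝ) * ((1 / p) * s + 1 / p) := by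
      intro p hp
      have hpp := hE p hp
      have hp0 : (0 : ℝ) < p := by exact_mod_cast hpp.pos
      rw [Finset.sum_comm]
      have h4 : ∀ q ∈ E, ∑ n ∈ Finset.Icc 1 N, (if p ∣ n ∧ q ∣ n then (1 : ℝ) else 0) ≤
          (N : ℝ) * ((1 / p) * (1 / q)) + (if q = p then (N : ℝ) * (1 / p) else 0) := by
        intro q hq
        have hqq := hE q hq
        have hq0 : (0 : ℝ) < q := by exact_mod_cast hqq.pos
        rw [← Finset.sum_filter, Finset.sum_const, nsmul_eq_mul, mul_one]
        by_cases hqp : q = p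
        · subst hqp
          rw [if_pos rfl]
          have h5 := card_mult N q hqq.pos
          have h6 : (Finset.Icc 1 N).filter (fun n => q ∣ n ∧ q ∣ n) =
              (Finset.Icc 1 N).filter (fun n => q ∣ n) := by
            ext n; simp
          rw [h6]
          have h7 : (0 : ℝ) ≤ (N : ℝ) * ((1 / q) * (1 / q)) := by positivity
          have h8 : (N : ℝ) / q = (N : ℝ) * (1 / q) := by ring
          rw [h8] at h5
          linarith
        · rw [if_neg hqp, add_zero]
          have hcop : Nat.Coprime p q := (Nat.coprime_primes hpp hqq).mpr (Ne.symm hqp)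
          have h5 := card_mult N (p * q) (Nat.mul_pos hpp.pos hqq.pos)
          have h6 : (Finset.Icc 1 N).filter (fun n => p ∣ n ∧ q ∣ n) ⊆
              (Finset.Icc 1 N).filter (fun n => p * q ∣ n) := by
            intro n hn
            simp only [Finset.mem_filter] at hn ⊢
            exact ⟨hn.1, hcop.mul_dvd_of_dvd_of_dvd hn.2.1 hn.2.2⟩
          have h7 := Finset.card_le_card h6
          calc (((Finset.Icc 1 N).filter (fun n => p ∣ n ∧ q ∣ n)).card : ℝ)
              ≤ (((Finset.Icc 1 N).filter (fun n => p * q ∣ n)).card : ℝ) := by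
                exact_mod_cast h7
            _ ≤ (N : ℝ) / ((p * q : ℕ) : ℝ) := h5
            _ = (N : ℝ) * ((1 / p) * (1 / q)) := by
                push_cast
                field_simp
      refine (Finset.sum_le_sum h4).trans ?_
      rw [Finset.sum_add_distrib, Finset.sum_ite_eq' E p, if_pos hp, hs, Finset.mul_sum, mul_add,
        Finset.mul_sum]
    refine (Finset.sum_le_sum h3).trans ?_
    rw [← Finset.mul_sum, Finset.sum_add_distrib, ← Finset.sum_mul, ← hs]
    nlinarith
  -- Cauchy-Schwarz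
  have hcs : (∑ n ∈ B, om n) ^ 2 ≤ (B.card : ℝ) * ∑ n ∈ B, (om n) ^ 2 := by
    exact sq_sum_le_card_mul_sum_sq
  have h5 : (d * s * N) ^ 2 ≤ ((1 - d) * N) * ((s ^ 2 + s) * N) := by
    calc (d * s * N) ^ 2 ≤ (∑ n ∈ B, om n) ^ 2 := by
          rw [← hsupp]
          exact pow_le_pow_left₀ (by positivity) htot 2
      _ ≤ (B.card : ℝ) * ∑ n ∈ B, (om n) ^ 2 := hcs
      _ ≤ ((1 - d) * N) * ((s ^ 2 + s) * N) := by
          exact mul_le_mul hBcard hsq (Finset.sum_nonneg fun n _ => by positivity)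
            ((Nat.cast_nonneg _).trans hBcard)
  have h7 : (d ^ 2 * s ^ 2) * (N : ℝ) ^ 2 ≤ ((1 - d) * (s ^ 2 + s)) * (N : ℝ) ^ 2 := by
    nlinarith
  exact le_of_mul_le_mul_right h7 (by positivity)

theorem main_aux {A : Set ℕ} (h : Prop1 A) {N0 : ℕ} {d : ℝ} (hd0 : 0 < d)
    (hd1 : 1 < d ^ 2 * (d + 1))
    (hev : ∀ n ≥ N0, d * n ≤ (cnt A n : ℝ)) : False := by
  classical
  have hd2 : 0 < d ^ 2 + d - 1 := by nlinarith [hev]
  have hd3 : (1 - d) < d * (d ^ 2 + d - 1) := by nlinarith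
  by_cases hc : ∃ E : Finset ℕ, (∀ p ∈ E, p.Prime) ∧ (∀ p ∈ E, ∀ m ∈ A, p * m ∉ A) ∧
      d ≤ ∑ p ∈ E, (1 / p : ℝ)
  · obtain ⟨E, hE1, hE2, hE3⟩ := hc
    set M := (N0 + 1) * ∏ p ∈ E, p with hM
    have hprod : 0 < ∏ p ∈ E, p := Finset.prod_pos fun p hp => (hE1 p hp).pos
    have hM0 : 0 < M := Nat.mul_pos (Nat.succ_pos _) hprod
    have hdvd : ∀ p ∈ E, p ∣ ∏ p ∈ E, p := fun p hp => Finset.dvd_prod_of_mem _ hp
    have h1 : ∀ p ∈ E, N0 ≤ M / p := by
      intro p hp
      have hp0 := (hE1 p hp).pos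
      rw [Nat.le_div_iff_mul_le hp0]
      have := Nat.le_of_dvd hprod (hdvd p hp)
      calc N0 * p ≤ (N0 + 1) * ∏ p ∈ E, p := Nat.mul_le_mul (Nat.le_succ _) this
        _ = M := rfl
    have h2 : N0 ≤ M := by
      calc N0 ≤ (N0 + 1) * 1 := by omega
        _ ≤ (N0 + 1) * ∏ p ∈ E, p := Nat.mul_le_mul_left _ hprod
    have h3 := finite_ineq hE1 hE2 hM0 (fun p hp => (hdvd p hp).mul_left _) hd0
      (fun p hp => hev _ (h1 p hp)) (hev _ h2)
    set s : ℝ := ∑ p ∈ E, (1 / p : ℝ) with hs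
    have hs0 : 0 < s := lt_of_lt_of_le hd0 hE3
    have h4 : (d ^ 2 * s) * s ≤ ((1 - d) * (s + 1)) * s := by nlinarith
    have h5 : d ^ 2 * s ≤ (1 - d) * (s + 1) := le_of_mul_le_mul_right h4 hs0
    have h6 : d * (d ^ 2 + d - 1) ≤ s * (d ^ 2 + d - 1) := mul_le_mul_of_nonneg_right hE3 hd2.le
    nlinarith
  · push Not at hc
    set N := N0 + 1 with hN
    have hNR : (0 : ℝ) < N := by positivity
    have h1 := hev N (by omega)
    set E : Finset ℕ := (Finset.Icc 1 N).filter (fun p => p.Prime ∧ ∀ m ∈ A, p * m ∉ A) with hEdef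
    have h2 := hc E (fun p hp => (Finset.mem_filter.mp hp).2.1)
      (fun p hp => (Finset.mem_filter.mp hp).2.2)
    have h3 : ((Finset.Icc 1 N).filter (· ∈ A)) ⊆
        E.biUnion (fun p => (Finset.Icc 1 N).filter (fun n => p ∣ n)) := by
      intro n hn
      rw [Finset.mem_filter, Finset.mem_Icc] at hn
      by_contra hcon
      have : n ∉ A := by
        apply not_mem_of_factors h (by omega)
        intro p hp hpn
        by_contra hno
        push Not at hno
        apply hcon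
        rw [Finset.mem_biUnion]
        have hpN : p ≤ n := Nat.le_of_dvd (by omega) hpn
        refine ⟨p, ?_, ?_⟩
        · rw [hEdef, Finset.mem_filter, Finset.mem_Icc]
          exact ⟨⟨hp.one_lt.le, by omega⟩, hp, hno⟩
        · rw [Finset.mem_filter, Finset.mem_Icc]
          exact ⟨⟨by omega, by omega⟩, hpn⟩
      exact this hn.2
    have h4 : (cnt A N : ℝ) ≤ ∑ p ∈ E, (N : ℝ) / p := by
      have h5 := (Finset.card_le_card h3).trans Finset.card_biUnion_le
      calc (cnt A N : ℝ) ≤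
          ((∑ p ∈ E, ((Finset.Icc 1 N).filter (fun n => p ∣ n)).card : ℕ) : ℝ) := by
            unfold cnt
            exact_mod_cast h5
        _ = ∑ p ∈ E, (((Finset.Icc 1 N).filter (fun n => p ∣ n)).card : ℝ) := by push_cast; rfl
        _ ≤ ∑ p ∈ E, (N : ℝ) / p := by
            apply Finset.sum_le_sum
            intro p hp
            exact card_mult N p (Finset.mem_filter.mp hp).2.1.pos
    have h5 : ∑ p ∈ E, (N : ℝ) / p = N * ∑ p ∈ E, (1 / p : ℝ) := by
      rw [Finset.mul_sum]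
      apply Finset.sum_congr rfl
      intro p _
      ring
    rw [h5] at h4
    nlinarith

end Pool.Agent.W50.EqualLengthGen
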